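import Mathlib

/-!
# A basis of the sets with even intersections

`z : Fin n → Finset (Fin n)` is a family of sets, `cmb z w` the symmetric difference of the sets `z j`, `j ∈ w`. For the
rows `h 0, h 1, …` and the block `Q` the family `kz Q h i` spans the sets `D ⊆ Q` with `#(D ∩ h i')` even, `i' < i`.
-/

set_option autoImplicit false

open Finset
open scoped symmDiff

namespace Pool.Agent.MPa9445a.GS

variable {n : ℕ}

/-- The parity of the intersection. -/
def par (r D : Finset (Fin n)) : ℕ := (D ∩ r).card % 2

/-- The symmetric difference of the sets `z j`, `j ∈ w`. -/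
def cmb (z : Fin n → Finset (Fin n)) (w : Finset (Fin n)) : Finset (Fin n) :=
  univ.filter fun v => (w.filter fun j => v ∈ z j).card % 2 = 1

/-- The first index with an odd intersection. -/
def fo (r : Finset (Fin n)) (z : Fin n → Finset (Fin n)) : Option (Fin n) :=
  (univ.filter fun j => par r (z j) = 1).min

/-- The pivot step. -/
def pv (r : Finset (Fin n)) (z : Fin n → Finset (Fin n)) : Fin n → Finset (Fin n) := fun j =>
  if par r (z j) = 1 then (match fo r z with | some p => z j ∆ z p | none => z j) else z j

/-- The family for the first `i` rows. -/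
def kz (Q : Finset (Fin n)) (h : ℕ → Finset (Fin n)) : ℕ → Fin n → Finset (Fin n)
  | 0 => fun j => if j ∈ Q then {j} else ∅
  | i + 1 => pv (h i) (kz Q h i)

theorem par_cases (r D : Finset (Fin n)) : par r D = 0 ∨ par r D = 1 := by
  unfold par
  omega

theorem card_symmDiff' (X Y : Finset (Fin n)) :
    (X ∆ Y).card + 2 * (X ∩ Y).card = X.card + Y.card := by
  have h1 : (X ∆ Y).card = (X \ Y).card + (Y \ X).card := by
    rw [show X ∆ Y = X \ Y ∪ Y \ X from rfl]
    exact card_union_of_disjoint disjoint_sdiff_sdiff
  have h2 := card_sdiff_add_card_inter X Y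
  have h3 := card_sdiff_add_card_inter Y X
  rw [inter_comm Y X] at h3
  omega

theorem par_symmDiff (r X Y : Finset (Fin n)) : par r (X ∆ Y) = (par r X + par r Y) % 2 := by
  unfold par
  have h1 : (X ∆ Y) ∩ r = (X ∩ r) ∆ (Y ∩ r) := inf_symmDiff_distrib_right X Y r
  have h2 := card_symmDiff' (X ∩ r) (Y ∩ r)
  rw [h1]
  omega

theorem cmb_empty (z : Fin n → Finset (Fin n)) : cmb z ∅ = ∅ := by
  unfold cmb
  simp

theorem cmb_symmDiff (z : Fin n → Finset (Fin n)) (X Y : Finset (Fin n)) :
    cmb z (X ∆ Y) = cmb z X ∆ cmb z Y := by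
  ext v
  unfold cmb
  rw [mem_symmDiff, mem_filter, mem_filter, mem_filter]
  simp only [mem_univ, true_and]
  have h1 : (X ∆ Y).filter (fun j => v ∈ z j) =
      (X.filter fun j => v ∈ z j) ∆ (Y.filter fun j => v ∈ z j) := by
    ext j
    simp only [mem_filter, mem_symmDiff]
    tauto
  have h2 := card_symmDiff' (X.filter fun j => v ∈ z j) (Y.filter fun j => v ∈ z j)
  rw [h1]
  omega

theorem cmb_singleton (z : Fin n → Finset (Fin n)) (j : Fin n) : cmb z {j} = z j := by
  ext v
  unfold cmb
  rw [mem_filter]
  by_cases h : v ∈ z j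
  · have h1 : ({j} : Finset (Fin n)).filter (fun j => v ∈ z j) = {j} := by
      rw [filter_singleton, if_pos h]
    rw [h1]
    simp [h]
  · have h1 : ({j} : Finset (Fin n)).filter (fun j => v ∈ z j) = ∅ := by
      rw [filter_singleton, if_neg h]
    rw [h1]
    simp [h]

/-- The induction over `w`. -/
theorem cmb_insert (z : Fin n → Finset (Fin n)) {j : Fin n} {w : Finset (Fin n)} (h : j ∉ w) :
    cmb z (insert j w) = z j ∆ cmb z w := by
  have h1 : insert j w = {j} ∆ w := by
    ext v
    simp only [mem_insert, mem_symmDiff, mem_singleton]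
    constructor
    · rintro (h2 | h2)
      · left
        exact ⟨h2, by rw [h2]; exact h⟩
      · right
        exact ⟨h2, by rintro rfl; exact h h2⟩
    · rintro (⟨h2, _⟩ | ⟨h2, _⟩)
      · exact Or.inl h2
      · exact Or.inr h2
  rw [h1, cmb_symmDiff, cmb_singleton]

/-- The parity of a combination. -/
theorem par_cmb (r : Finset (Fin n)) (z : Fin n → Finset (Fin n)) (w : Finset (Fin n)) :
    par r (cmb z w) = (∑ j ∈ w, par r (z j)) % 2 := by
  induction w using Finset.induction_on with
  | empty =>
    rw [cmb_empty]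
    simp [par]
  | insert j w h ih =>
    rw [cmb_insert z h, par_symmDiff, ih, Finset.sum_insert h]
    omega

theorem fo_some {r : Finset (Fin n)} {z : Fin n → Finset (Fin n)} {p : Fin n}
    (h : fo r z = some p) : par r (z p) = 1 := by
  have h1 : p ∈ univ.filter fun j => par r (z j) = 1 := Finset.mem_of_min h
  exact (mem_filter.1 h1).2

theorem fo_none {r : Finset (Fin n)} {z : Fin n → Finset (Fin n)} (h : fo r z = none)
    (j : Fin n) : par r (z j) = 0 := by
  have h1 : univ.filter (fun j => par r (z j) = 1) = ∅ := Finset.min_eq_top.1 h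
  rcases par_cases r (z j) with h2 | h2
  · exact h2
  · have h3 : j ∈ univ.filter fun j => par r (z j) = 1 := mem_filter.2 ⟨mem_univ j, h2⟩
    rw [h1] at h3
    exact absurd h3 (notMem_empty j)

/-- The combinations after the pivot step. -/
theorem cmb_pv (r : Finset (Fin n)) (z : Fin n → Finset (Fin n)) (w : Finset (Fin n)) :
    cmb (pv r z) w = if par r (cmb z w) = 1 then
      (match fo r z with | some p => cmb z w ∆ z p | none => cmb z w) else cmb z w := by
  induction w using Finset.induction_on with
  | empty =>
    rw [cmb_empty, cmb_empty]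
    simp [par]
  | insert j w h ih =>
    rw [cmb_insert _ h, cmb_insert _ h, ih, par_symmDiff]
    unfold pv
    cases hf : fo r z with
    | none =>
      have h1 := fo_none hf
      have h2 := h1 j
      rw [h2]
      simp
    | some p =>
      rcases par_cases r (z j) with h1 | h1
      · rcases par_cases r (cmb z w) with h2 | h2
        · simp [h1, h2]
        · simp only [h1, h2]
          norm_num
          rw [symmDiff_assoc]
      · rcases par_cases r (cmb z w) with h2 | h2
        · simp only [h1, h2]
          norm_num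
          rw [symmDiff_assoc, symmDiff_comm (z p), ← symmDiff_assoc]
        · simp only [h1, h2]
          norm_num
          rw [symmDiff_assoc, symmDiff_comm (cmb z w) (z p), symmDiff_symmDiff_cancel_left]

/-- The sets which are combinations after the pivot step. -/
theorem range_pv (r : Finset (Fin n)) (z : Fin n → Finset (Fin n)) (D : Finset (Fin n)) :
    (∃ w, cmb (pv r z) w = D) ↔ (∃ w, cmb z w = D) ∧ par r D = 0 := by
  constructor
  · rintro ⟨w, rfl⟩
    rw [cmb_pv]
    cases hf : fo r z with
    | none =>
      have h1 : par r (cmb z w) = 0 := by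
        rw [par_cmb, Finset.sum_eq_zero fun j _ => fo_none hf j, Nat.zero_mod]
      rw [h1]
      simp only [zero_ne_one, if_false]
      exact ⟨⟨w, rfl⟩, h1⟩
    | some p =>
      have h1 := fo_some hf
      rcases par_cases r (cmb z w) with h2 | h2
      · rw [h2]
        simp only [zero_ne_one, if_false]
        exact ⟨⟨w, rfl⟩, h2⟩
      · rw [if_pos h2]
        refine ⟨⟨w ∆ {p}, ?_⟩, ?_⟩
        · rw [cmb_symmDiff, cmb_singleton]
        · rw [par_symmDiff, h1, h2]
  · rintro ⟨⟨w, rfl⟩, h⟩
    refine ⟨w, ?_⟩
    rw [cmb_pv, h]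
    simp

/-- The combinations are the sets in the kernel. -/
theorem range_kz (Q : Finset (Fin n)) (h : ℕ → Finset (Fin n)) (i : ℕ) (D : Finset (Fin n)) :
    (∃ w, cmb (kz Q h i) w = D) ↔ D ⊆ Q ∧ ∀ i' < i, par (h i') D = 0 := by
  induction i generalizing D with
  | zero =>
    have key : ∀ w, cmb (kz Q h 0) w = w ∩ Q := by
      intro w
      induction w using Finset.induction_on with
      | empty => rw [cmb_empty, empty_inter]
      | insert j w hj ih =>
        rw [cmb_insert _ hj, ih]
        show (if j ∈ Q then {j} else ∅) ∆ (w ∩ Q) = _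
        ext v
        by_cases hQ : j ∈ Q
        · simp only [hQ, if_true, mem_symmDiff, mem_singleton, mem_inter, mem_insert]
          constructor
          · rintro (⟨h1, h2⟩ | ⟨h1, h2⟩)
            · exact ⟨Or.inl h1, by rw [h1]; exact hQ⟩
            · exact ⟨Or.inr h1.1, h1.2⟩
          · rintro ⟨h1 | h1, h2⟩
            · left
              exact ⟨h1, fun h3 => hj (by rw [← h1]; exact h3.1)⟩
            · right
              exact ⟨⟨h1, h2⟩, fun h3 => hj (by rw [← h3]; exact h1)⟩
        · simp only [hQ, if_false, mem_symmDiff, mem_inter, mem_insert, notMem_empty, false_and,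
            false_or, not_false_iff, and_true]
          constructor
          · rintro ⟨h1, h2⟩
            exact ⟨Or.inr h1, h2⟩
          · rintro ⟨h1 | h1, h2⟩
            · exact absurd (by rw [← h1]; exact h2) hQ
            · exact ⟨h1, h2⟩
    constructor
    · rintro ⟨w, rfl⟩
      rw [key]
      exact ⟨inter_subset_right, fun i' hi => absurd hi (Nat.not_lt_zero _)⟩
    · rintro ⟨h1, _⟩
      exact ⟨D, by rw [key, inter_eq_left.2 h1]⟩
  | succ i ih =>
    show (∃ w, cmb (pv (h i) (kz Q h i)) w = D) ↔ _
    rw [range_pv, ih]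
    constructor
    · rintro ⟨⟨h1, h2⟩, h3⟩
      refine ⟨h1, fun i' hi' => ?_⟩
      rcases Nat.lt_succ_iff_lt_or_eq.1 hi' with h4 | h4
      · exact h2 i' h4
      · rw [h4]
        exact h3
    · rintro ⟨h1, h2⟩
      exact ⟨⟨h1, fun i' hi' => h2 i' (Nat.lt_succ_of_lt hi')⟩, h2 i (Nat.lt_succ_self i)⟩

/-- All values of `cmb z` have the same number of arguments. -/
theorem card_fibre (z : Fin n → Finset (Fin n)) (w₀ : Finset (Fin n)) :
    (univ.filter fun w => cmb z w = cmb z w₀).card = (univ.filter fun w => cmb z w = ∅).card := by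
  refine Finset.card_bij (fun w _ => w ∆ w₀) ?_ ?_ ?_
  · intro w hw
    rw [mem_filter] at hw ⊢
    refine ⟨mem_univ _, ?_⟩
    rw [cmb_symmDiff, hw.2, symmDiff_self]
    rfl
  · intro a _ b _ hab
    exact symmDiff_left_injective w₀ hab
  · intro w hw
    rw [mem_filter] at hw
    refine ⟨w ∆ w₀, ?_, ?_⟩
    · rw [mem_filter]
      refine ⟨mem_univ _, ?_⟩
      rw [cmb_symmDiff, hw.2]
      exact bot_symmDiff _
    · rw [symmDiff_symmDiff_cancel_right]

end Pool.Agent.MPa9445a.GS
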