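import Pool.Agent.Lib.MP_a9445a_lc.Mg.G105

/-! The running time of an attempt. -/

set_option autoImplicit false

open Finset

namespace Pool.Agent.MPa9445a.GS

open Pool.Agent.MPa9445a.BE (Ty Env vs one Bd NL DL tb flt gt bit Phi vec code lin argmax Bd.const
  Bd.add Bd.mul Bd.le Bd.up Bd.var Bd.self)
open Pool.Agent.MPa9445a.GD
open Pool.Agent.MPa9445a.SN (kb)
open Pool.Agent.MPa9445a.GL (Pc Pf Df rk sv rc dk RL Zn LL lvv inl EE HE HF HL PP Pm c_rk bd_rk c_rc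
  c_dk c_RL c_Zn c_LL bd_LL c_lvv c_inl c_bl c_EE Bd.dom' c_sv YS tl c_run c_tl length_run_le
  length_tl PB_dom)
open Pool.Agent.MPa9445a.SB (Lev c1 c2)
open Pool.Agent.MPa9445a.SX (jx dgt agc HA HV grN scL hN exL UL MB BL nB atp atI ndp)

/-- The exponent of the number of tries in the code. -/
def Sm.eU (q : Sm) : ℕ := exL q.n q.M q.R q.o q.s q.g q.t (dmL q.n q.R q.s + Rc q.n)

/-- The exponent of the number of tries. -/
def Sm.eB (q : Sm) : ℕ := exL q.n q.M q.R q.o q.s q.g q.t (rk q.s q.n)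

/-- The parameters of mode U. -/
def Sm.pU (q : Sm) : Pm := ⟨q.n, pkM q.n q.M (rk q.s q.n), q.R, q.o + GL.bl q.n, q.s, q.s, 0,
  (q.p + q.t) / 2, q.p, q.b, 2 ^ q.eU⟩

/-- The matrix of mode B. -/
def Sm.MB (P : Lev) (q : Sm) (y : ℕ) : List ℤ := SX.MB P q.n q.M q.R q.o q.s q.g q.t y

/-- The parameters of mode B. -/
def Sm.pB (P : Lev) (q : Sm) (y : ℕ) : Pm := ⟨q.n, q.MB P y, q.R, q.o + 2 * GL.bl q.n, q.s, q.s, 0,
  (q.p + q.t) / 2, q.p, q.b, 2 ^ q.eB⟩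

def Sm.U (Ch : Pf) (q : Sm) : List ℤ := UL Ch q.n q.M q.R q.o q.s q.g q.p q.b q.t

def Sm.B (P : Lev) (q : Sm) (y : ℕ) : List ℤ := BL P q.n q.M q.R q.o q.s q.g q.p q.b q.t y

theorem Sm.U_eq (Ch : Pf) (q : Sm) : q.U Ch = q.pU.run Ch dFU := rfl

theorem Sm.B_eq (P : Lev) (q : Sm) (y : ℕ) : q.B P y = (q.pB P y).run (EB P.d) dFB := rfl

theorem Sm.length_U (Ch : Pf) (q : Sm) : (q.U Ch).length ≤ 1 + 2 ^ q.b :=
  length_run_le (q.pU.E Ch) q.n q.s (q.pU.d dFU) ((q.p + q.t) / 2) q.b _ _ q.p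

theorem Sm.length_B (P : Lev) (q : Sm) (y : ℕ) : (q.B P y).length ≤ 1 + 2 ^ q.b :=
  length_run_le ((q.pB P y).E (EB P.d)) q.n q.s ((q.pB P y).d dFB) ((q.p + q.t) / 2) q.b _ _ q.p

def Sm.nB (P : Lev) (q : Sm) : ℕ := SX.nB P q.n q.M q.R q.o q.s q.g q.p q.b q.t

def Sm.atp (P : Lev) (Ch : Pf) (q : Sm) : List ℤ :=
  SX.atp P Ch q.n q.M q.R q.o q.s q.g q.p q.b q.t

theorem Sm.atp_eq (P : Lev) (Ch : Pf) (q : Sm) : q.atp P Ch =
    if rk q.s q.n ≤ q.g + q.b then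
      if 2 ^ (c1 * lgn q.n - 1) ≤ q.h ∧ (q.p + q.t) % 2 = 0 ∧ q.eU ≤ q.b ∧ q.eB ≤ q.b then
        if (q.U Ch).length = 0 then [] else
        if q.nB P = 0 then
          1 :: dd q.n (tl (q.U Ch) ++ fm ((2 * q.n) ^ P.l) fun y => tl (q.B P y))
        else []
      else []
    else [] := rfl

variable {A : Type} {N : A → ℕ} {D : A → Prop} {Γ : List Ty} {ρ : A → Env Γ} {x : A → Sm}

theorem bd_pow {f : A → ℕ} (hf : Bd N D f) (l : ℕ) : Bd N D (fun a => f a ^ l) := by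
  obtain ⟨m, hm⟩ := hf
  refine ⟨m * l, fun a ha => ?_⟩
  rw [pow_mul]
  exact Nat.pow_le_pow_left (hm a ha) l

theorem c_exL (hx : SmP N D ρ x) (hh : PN N D ρ (fun a => (x a).h)) {c : A → ℕ}
    (hc : PN N D ρ c) :
    PN N D ρ (fun a => exL (x a).n (x a).M (x a).R (x a).o (x a).s (x a).g (x a).t (c a)) :=
  PN.sub (PN.sub (PN.add hc (PN.mul (PN.const 60) (c_lgn hx.n hx.bn))) hx.g)
    (c_lgB (c_J hx) (bd_J hx) hh)

theorem bd_exL (hx : SmP N D ρ x) {c : A → ℕ} (bc : Bd N D c) :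
    Bd N D (fun a => exL (x a).n (x a).M (x a).R (x a).o (x a).s (x a).g (x a).t (c a)) :=
  (bc.add ((Bd.const 60).mul (bd_lgn hx.bn))).le fun _ _ =>
    (Nat.sub_le _ _).trans (Nat.sub_le _ _)

theorem c_eU (hx : SmP N D ρ x) (hh : PN N D ρ (fun a => (x a).h)) :
    PN N D ρ (fun a => (x a).eU) :=
  c_exL hx hh (PN.add (c_dmL hx.n hx.bn hx.R hx.s) (c_Rc hx.n))

theorem bd_eU (hx : SmP N D ρ x) : Bd N D (fun a => (x a).eU) :=
  bd_exL hx ((bd_dmL hx.bn).add (bd_Rc hx.bn))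

theorem c_eB (hx : SmP N D ρ x) (hh : PN N D ρ (fun a => (x a).h)) :
    PN N D ρ (fun a => (x a).eB) := c_exL hx hh (c_rk hx.s hx.n hx.bn)

theorem bd_eB (hx : SmP N D ρ x) : Bd N D (fun a => (x a).eB) := bd_exL hx (bd_rk hx.bn)

private theorem R2_run {n b e : A → ℕ} (bn : Bd N D n) (he : ∀ a, D a → e a ≤ b a) :
    ∃ m : ℕ, ∀ a, D a → ((2 ^ e a * LL (n a) : ℕ) : ℝ) + (2 : ℝ) ^ b a ≤
      ((N a : ℝ) + 2) ^ m * (2 : ℝ) ^ b a := by
  obtain ⟨m, hm⟩ := bd_LL bn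
  refine ⟨m + 1, fun a ha => ?_⟩
  have h3 := one_le_two_pow' (b a)
  have h4 : (0 : ℝ) ≤ N a := Nat.cast_nonneg _
  have h5 : (LL (n a) : ℝ) ≤ ((N a : ℝ) + 2) ^ m := by exact_mod_cast hm a ha
  have h6 : (2 : ℝ) ^ e a ≤ (2 : ℝ) ^ b a := pow_le_pow_right₀ (by norm_num) (he a ha)
  have h7 : (1 : ℝ) ≤ ((N a : ℝ) + 2) ^ m := one_le_pow₀ (by linarith)
  push_cast
  have h8 : (2 : ℝ) ^ e a * (LL (n a) : ℝ) ≤ (2 : ℝ) ^ b a * ((N a : ℝ) + 2) ^ m :=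
    mul_le_mul h6 h5 (Nat.cast_nonneg _) (by positivity)
  have h9 : (1 : ℝ) * (2 : ℝ) ^ b a ≤ ((N a : ℝ) + 2) ^ m * (2 : ℝ) ^ b a :=
    mul_le_mul_of_nonneg_right h7 (by positivity)
  have h10 : 0 ≤ (N a : ℝ) * (((N a : ℝ) + 2) ^ m * (2 : ℝ) ^ b a) := by positivity
  rw [pow_succ]
  nlinarith

theorem c_U {Ch : Pf} (hE : HE Ch) (hx : SmP N D ρ x) (hh : PN N D ρ (fun a => (x a).h))
    (he : ∀ a, D a → (x a).eU ≤ (x a).b) :
    Cp N D ρ (fun _ a => (2 : ℝ) ^ (x a).b) .arr (fun a => (x a).U Ch) := by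
  have hP : PP N D ρ (fun a => (x a).pU) :=
    ⟨hx.n, hx.bn, c_pkM hx.n hx.bn hx.M (c_rk hx.s hx.n hx.bn), hx.R, PN.add hx.o (c_bl hx.n), hx.s,
      hx.s, PN.const 0, PI.div (PI.add hx.p hx.t) (PI.const 2), hx.p, hx.b, hx.bb,
      PN.pow2 (c_eU hx hh) (bd_eU hx)⟩
  obtain ⟨m, hm⟩ := R2_run hx.bn he
  exact (c_run hE hdFU hP).mono_poly m fun a ha τ _ => ⟨one_le_two_pow' _, hm a ha⟩

/-- The matrix of mode B. -/
theorem c_MB (P : Lev) (hx : SmP N D ρ x)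
    (h : ∀ a, D a → rk (x a).s (x a).n ≤ (x a).g + (x a).b) {y : A → ℕ} (hy : PN N D ρ y) :
    Cp N D ρ (fun _ a => (2 : ℝ) ^ (x a).b) .arr (fun a => (x a).MB P (y a)) := by
  refine (c_scL hx h P.l P.M P.tw hy).store fun Γ1 ρ1 k1 h1 => ?_
  refine (c_scL (hx.ke k1) h P.l P.M P.ta (k1.n hy)).store fun Γ2 ρ2 k2 h2 => ?_
  refine (c_scL ((hx.ke k1).ke k2) h P.l P.M P.tb (k2.n (k1.n hy))).store fun Γ3 ρ3 k3 h3 => ?_
  have hx3 := ((hx.ke k1).ke k2).ke k3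
  have hr := c_rk hx3.s hx3.n hx3.bn
  exact (c_pkB hx3.n hx3.bn hx3.M hr (PN.div (PN.mul (PN.mul (PN.const P.K) (PN.const P.th)) hr)
    (PN.const 1000000)) (k3.a (k2.a h1)) (k3.a h2) h3).lift fun a _ τ _ => one_le_two_pow' _

theorem c_B (P : Lev) (hx : SmP N D ρ x) (hh : PN N D ρ (fun a => (x a).h))
    (h : ∀ a, D a → rk (x a).s (x a).n ≤ (x a).g + (x a).b)
    (he : ∀ a, D a → (x a).eB ≤ (x a).b) {y : A → ℕ} (hy : PN N D ρ y) :
    Cp N D ρ (fun _ a => (2 : ℝ) ^ (x a).b) .arr (fun a => (x a).B P (y a)) := by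
  refine (c_MB P hx h hy).store fun Γ1 ρ1 k1 hMB => ?_
  have hx1 := hx.ke k1
  have hP : PP N D ρ1 (fun a => (x a).pB P (y a)) :=
    ⟨hx1.n, hx1.bn, hMB, hx1.R, PN.add hx1.o (PN.mul (PN.const 2) (c_bl hx1.n)), hx1.s,
      hx1.s, PN.const 0, PI.div (PI.add hx1.p hx1.t) (PI.const 2), hx1.p, hx1.b, hx1.bb,
      PN.pow2 (c_eB hx1 (k1.n hh)) (bd_eB hx1)⟩
  obtain ⟨m, hm⟩ := R2_run hx.bn he
  exact (c_run (c_EB P.d) hdFB hP).mono_poly m fun a ha τ _ => ⟨one_le_two_pow' _, hm a ha⟩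

theorem c_twon (hx : SmP N D ρ x) (l : ℕ) : PN N D ρ (fun a => (2 * (x a).n) ^ l) :=
  PN.pow (PN.mul (PN.const 2) hx.n) l

theorem bd_twon (hx : SmP N D ρ x) (l : ℕ) : Bd N D (fun a => (2 * (x a).n) ^ l) :=
  bd_pow ((Bd.const 2).mul hx.bn) l

theorem c_nB (P : Lev) (hx : SmP N D ρ x) (hh : PN N D ρ (fun a => (x a).h))
    (h : ∀ a, D a → rk (x a).s (x a).n ≤ (x a).g + (x a).b)
    (he : ∀ a, D a → (x a).eB ≤ (x a).b) :
    Cp N D ρ (fun _ a => (2 : ℝ) ^ (x a).b) .int (fun a => ((x a).nB P : ℤ)) := by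
  have h1 := Cp.sum (k := fun a => (2 * (x a).n) ^ P.l) (w := fun _ a => (2 : ℝ) ^ (x a).b)
    (f := fun a y => ((if ((x a).B P y).length = 0 then 1 else 0 : ℕ) : ℤ)) (c_twon hx P.l)
    (fun a _ τ _ => one_le_two_pow' _) fun Γ1 ρ1 up hv => by
      refine (c_B P (hx.up up) (up.n hh) (fun p hp => h p.1 hp.1) (fun p hp => he p.1 hp.1)
        hv).store fun Γ2 ρ2 k2 hB => ?_
      exact (PN.ite (PB.eqN (PN.len hB) (PN.const 0)) (PN.const 1) (PN.const 0)).lift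
        fun p _ τ _ => one_le_two_pow' _
  obtain ⟨c, hc⟩ := bd_twon hx P.l
  refine (h1.mono_poly (c + 1) fun a ha τ _ => ⟨one_le_two_pow' _, ?_⟩).congr fun a _ => ?_
  · have h3 : (((2 * (x a).n) ^ P.l : ℕ) : ℝ) ≤ ((N a : ℝ) + 2) ^ c := by exact_mod_cast hc a ha
    have h4 : (0 : ℝ) ≤ N a := Nat.cast_nonneg _
    have h5 : (1 : ℝ) ≤ ((N a : ℝ) + 2) ^ c := one_le_pow₀ (by linarith)
    refine mul_le_mul_of_nonneg_right ?_ (by positivity)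
    rw [pow_succ]
    nlinarith
  · unfold Sm.nB SX.nB
    push_cast
    rfl

/-- The list of the results of an attempt. -/
theorem c_res (P : Lev) {Ch : Pf} (hx : SmP N D ρ x) (hh : PN N D ρ (fun a => (x a).h))
    (h : ∀ a, D a → rk (x a).s (x a).n ≤ (x a).g + (x a).b)
    (he : ∀ a, D a → (x a).eB ≤ (x a).b) (hU : PA N D ρ (fun a => (x a).U Ch)) :
    Cp N D ρ (fun _ a => (2 : ℝ) ^ (x a).b) .arr (fun a =>
      1 :: dd (x a).n (tl ((x a).U Ch) ++ fm ((2 * (x a).n) ^ P.l) fun y => tl ((x a).B P y))) := by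
  have hlU : ∀ a, ((tl ((x a).U Ch)).length : ℝ) ≤ (2 : ℝ) ^ (x a).b := fun a => by
    rw [length_tl]
    have h2 : ((x a).U Ch).length - 1 ≤ 2 ^ (x a).b :=
      Nat.sub_le_iff_le_add'.2 (Sm.length_U Ch (x a))
    exact_mod_cast h2
  have hlB : ∀ a y, ((tl ((x a).B P y)).length : ℝ) ≤ (2 : ℝ) ^ (x a).b := fun a y => by
    rw [length_tl]
    have h2 : ((x a).B P y).length - 1 ≤ 2 ^ (x a).b :=
      Nat.sub_le_iff_le_add'.2 (Sm.length_B P (x a) y)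
    exact_mod_cast h2
  have h1 : Cp N D ρ (fun _ a => (2 : ℝ) ^ (x a).b) .arr (fun a => tl ((x a).U Ch)) := by
    refine (c_tl hU).mono_poly 2 fun a _ τ _ => ⟨one_le_two_pow' _, ?_⟩
    have h3 : (((x a).U Ch).length : ℝ) ≤ 1 + (2 : ℝ) ^ (x a).b := by
      exact_mod_cast Sm.length_U Ch (x a)
    have h4 := one_le_two_pow' (x a).b
    have h5 : (0 : ℝ) ≤ N a := Nat.cast_nonneg _
    have h6 : (4 : ℝ) ≤ ((N a : ℝ) + 2) ^ 2 := by nlinarith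
    have h7 := mul_le_mul_of_nonneg_right h6 (zero_le_one.trans h4)
    linarith
  have h2 : Cp N D ρ (fun _ a => (2 : ℝ) ^ (x a).b) .arr
      (fun a => fm ((2 * (x a).n) ^ P.l) fun y => tl ((x a).B P y)) := by
    have h3 := Cp.cat (k := fun a => (2 * (x a).n) ^ P.l) (w := fun _ p => (2 : ℝ) ^ (x p.1).b)
      (f := fun a y => tl ((x a).B P y)) (c_twon hx P.l)
      (fun Γ1 ρ1 up hv => by
        refine (c_B P (hx.up up) (up.n hh) (fun p hp => h p.1 hp.1) (fun p hp => he p.1 hp.1)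
          hv).store fun Γ2 ρ2 k2 hB => ?_
        refine (c_tl hB).mono_poly 2 fun p _ τ _ => ⟨one_le_two_pow' _, ?_⟩
        have h3 : (((x p.1).B P p.2).length : ℝ) ≤ 1 + (2 : ℝ) ^ (x p.1).b := by
          exact_mod_cast Sm.length_B P (x p.1) p.2
        have h4 := one_le_two_pow' (x p.1).b
        have h5 : (0 : ℝ) ≤ (NL N p : ℝ) := Nat.cast_nonneg _
        have h6 : (4 : ℝ) ≤ ((NL N p : ℝ) + 2) ^ 2 := by nlinarith
        have h7 := mul_le_mul_of_nonneg_right h6 (zero_le_one.trans h4)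
        linarith)
      ⟨0, fun a _ i _ τ _ => by
        rw [pow_zero, one_mul]
        exact hlB a i⟩
    obtain ⟨c, hc⟩ := bd_twon hx P.l
    refine h3.mono_poly (c + 1) fun a ha τ _ => ⟨one_le_two_pow' _, ?_⟩
    have h3 : (((2 * (x a).n) ^ P.l : ℕ) : ℝ) ≤ ((N a : ℝ) + 2) ^ c := by exact_mod_cast hc a ha
    show 1 + ∑ i ∈ range ((2 * (x a).n) ^ P.l), (2 : ℝ) ^ (x a).b ≤ _
    rw [Finset.sum_const, Finset.card_range, nsmul_eq_mul, add_comm]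
    exact lp (N := N a) (m := c) (one_le_two_pow' _) (mul_le_mul_of_nonneg_right h3 (by positivity))
  have hlF : ∃ m : ℕ, ∀ a, D a → ((fm ((2 * (x a).n) ^ P.l) fun y => tl ((x a).B P y)).length : ℝ) ≤
      ((N a : ℝ) + 2) ^ m * (2 : ℝ) ^ (x a).b := by
    obtain ⟨c, hc⟩ := bd_twon hx P.l
    refine ⟨c, fun a ha => ?_⟩
    have h3 : (((2 * (x a).n) ^ P.l : ℕ) : ℝ) ≤ ((N a : ℝ) + 2) ^ c := by exact_mod_cast hc a ha
    rw [length_fm]
    push_cast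
    refine (Finset.sum_le_sum fun i _ => hlB a i).trans ?_
    rw [Finset.sum_const, Finset.card_range, nsmul_eq_mul]
    exact mul_le_mul_of_nonneg_right h3 (by positivity)
  obtain ⟨m, hm⟩ := hlF
  have hlA : ∀ a, D a → ((tl ((x a).U Ch) ++
      fm ((2 * (x a).n) ^ P.l) fun y => tl ((x a).B P y)).length : ℝ) ≤
      ((N a : ℝ) + 2) ^ (m + 1) * (2 : ℝ) ^ (x a).b := fun a ha => by
    rw [List.length_append]
    push_cast
    have h3 := hlU a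
    have h4 := hm a ha
    have h5 : (0 : ℝ) ≤ N a := Nat.cast_nonneg _
    have h6 : (1 : ℝ) ≤ ((N a : ℝ) + 2) ^ m := one_le_pow₀ (by linarith)
    have h7 : (1 : ℝ) * (2 : ℝ) ^ (x a).b ≤ ((N a : ℝ) + 2) ^ m * (2 : ℝ) ^ (x a).b :=
      mul_le_mul_of_nonneg_right h6 (by positivity)
    have h8 : 0 ≤ (N a : ℝ) * (((N a : ℝ) + 2) ^ m * (2 : ℝ) ^ (x a).b) := by positivity
    rw [pow_succ]
    nlinarith
  refine (Cp.app h1 h2 ⟨m + 1, fun a ha τ _ => by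
    have h3 := hlA a ha
    rw [List.length_append] at h3
    push_cast at h3
    exact h3⟩).store fun Γ1 ρ1 k1 hA => ?_
  have h4 : Cp N D ρ1 (fun _ a => (2 : ℝ) ^ (x a).b) .arr (fun a =>
      dd (x a).n (tl ((x a).U Ch) ++ fm ((2 * (x a).n) ^ P.l) fun y => tl ((x a).B P y))) :=
    (Cp.dd (k1.n hx.n) hx.bn hA).mono_poly (m + 1 + 1) fun a ha τ _ =>
      ⟨one_le_two_pow' _, lp (N := N a) (m := m + 1) (one_le_two_pow' _) (hlA a ha)⟩
  refine Cp.cons (PI.const 1) h4 ⟨m + 1, fun a ha τ _ => ?_⟩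
  refine le_trans ?_ (hlA a ha)
  exact_mod_cast length_dd_le _ _

/-- The attempt. -/
theorem c_atp (P : Lev) {Ch : Pf} (hE : HE Ch) (hx : SmP N D ρ x) :
    Cp N D ρ (fun _ a => (2 : ℝ) ^ (x a).b) .arr (fun a => (x a).atp P Ch) := by
  have hnil : ∀ {Γ' : List Ty} {ρ' : A → Env Γ'} {D' : A → Prop},
      Cp N D' ρ' (fun _ a => (2 : ℝ) ^ (x a).b) .arr (fun _ => []) :=
    fun {Γ' ρ' D'} => PA.nil.lift fun a _ _ _ => one_le_two_pow' _
  have hq0 := PB.leN (c_rk hx.s hx.n hx.bn) (PN.add hx.g hx.b)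
  have hD0 : ∀ a, (D a ∧ rk (x a).s (x a).n ≤ (x a).g + (x a).b) → D a := fun a h => h.1
  have hx0 := hx.dom hD0
  have h1 : Cp N (fun a => D a ∧ rk (x a).s (x a).n ≤ (x a).g + (x a).b) ρ
      (fun _ a => (2 : ℝ) ^ (x a).b) .arr (fun a =>
      if 2 ^ (c1 * lgn (x a).n - 1) ≤ (x a).h ∧ ((x a).p + (x a).t) % 2 = 0 ∧
          (x a).eU ≤ (x a).b ∧ (x a).eB ≤ (x a).b then
        if ((x a).U Ch).length = 0 then [] else
        if (x a).nB P = 0 then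
          1 :: dd (x a).n (tl ((x a).U Ch) ++ fm ((2 * (x a).n) ^ P.l) fun y => tl ((x a).B P y))
        else []
      else []) := by
    refine (c_h hx0 fun a h => h.2).store fun Γ1 ρ1 k1 hh' => ?_
    have hh : PN N (fun a => D a ∧ rk (x a).s (x a).n ≤ (x a).g + (x a).b) ρ1
      (fun a => (x a).h) := hh'
    have hx1 := hx0.ke k1
    have hpr := PN.pow2 (PN.sub (PN.mul (PN.const 30) (c_lgn hx1.n hx1.bn)) (PN.const 1))
      (((Bd.const 30).mul (bd_lgn hx1.bn)).le fun _ _ => Nat.sub_le _ _)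
    have hq1 := PB.and (PB.leN hpr hh) (PB.and (PB.eq (PI.mod (PI.add hx1.p hx1.t) (PI.const 2))
      (PI.const 0)) (PB.and (PB.leN (c_eU hx1 hh) hx1.b) (PB.leN (c_eB hx1 hh) hx1.b)))
    have hD1 : ∀ a, ((D a ∧ rk (x a).s (x a).n ≤ (x a).g + (x a).b) ∧
        (2 ^ (c1 * lgn (x a).n - 1) ≤ (x a).h ∧ ((x a).p + (x a).t) % 2 = 0 ∧
          (x a).eU ≤ (x a).b ∧ (x a).eB ≤ (x a).b)) →
        (D a ∧ rk (x a).s (x a).n ≤ (x a).g + (x a).b) := fun a h => h.1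
    have hx2 := hx1.dom hD1
    have hh2 := Cp.dom hh hD1
    have h2 : Cp N (fun a => (D a ∧ rk (x a).s (x a).n ≤ (x a).g + (x a).b) ∧
        (2 ^ (c1 * lgn (x a).n - 1) ≤ (x a).h ∧ ((x a).p + (x a).t) % 2 = 0 ∧
          (x a).eU ≤ (x a).b ∧ (x a).eB ≤ (x a).b)) ρ1
        (fun _ a => (2 : ℝ) ^ (x a).b) .arr (fun a =>
        if ((x a).U Ch).length = 0 then [] else
        if (x a).nB P = 0 then
          1 :: dd (x a).n (tl ((x a).U Ch) ++ fm ((2 * (x a).n) ^ P.l) fun y => tl ((x a).B P y))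
        else []) := by
      refine (c_U hE hx2 hh2 fun a h => h.2.2.2.1).store fun Γ2 ρ2 k2 hU => ?_
      have hx3 := hx2.ke k2
      have hh3 := k2.n hh2
      have h3 : Cp N (fun a => (D a ∧ rk (x a).s (x a).n ≤ (x a).g + (x a).b) ∧
          (2 ^ (c1 * lgn (x a).n - 1) ≤ (x a).h ∧ ((x a).p + (x a).t) % 2 = 0 ∧
            (x a).eU ≤ (x a).b ∧ (x a).eB ≤ (x a).b)) ρ2
          (fun _ a => (2 : ℝ) ^ (x a).b) .arr (fun a =>
          if (x a).nB P = 0 then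
            1 :: dd (x a).n (tl ((x a).U Ch) ++ fm ((2 * (x a).n) ^ P.l) fun y => tl ((x a).B P y))
          else []) := by
        refine (c_nB P hx3 hh3 (fun a h => h.1.2) fun a h => h.2.2.2.2).store
          fun Γ3 ρ3 k3 hnB' => ?_
        have hnB : PN N (fun a => (D a ∧ rk (x a).s (x a).n ≤ (x a).g + (x a).b) ∧
          (2 ^ (c1 * lgn (x a).n - 1) ≤ (x a).h ∧ ((x a).p + (x a).t) % 2 = 0 ∧
            (x a).eU ≤ (x a).b ∧ (x a).eB ≤ (x a).b)) ρ3 (fun a => (x a).nB P) := hnB'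
        have h4 := c_res P (Ch := Ch) (hx3.ke k3) (k3.n hh3) (fun a h => h.1.2)
          (fun a h => h.2.2.2.2) (k3.a hU)
        refine (Cp.iteA (PB.eqN hnB (PN.const 0)) (Cp.dom h4 fun a h => h.1) hnil).mono
          fun a _ τ _ => ?_
        split_ifs <;> exact le_rfl
      refine (Cp.iteA (PB.eqN (PN.len hU) (PN.const 0)) hnil (Cp.dom h3 fun a h => h.1)).mono
        fun a _ τ _ => ?_
      split_ifs <;> exact le_rfl
    refine (Cp.iteA hq1 h2 hnil).mono fun a _ τ _ => ?_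
    split_ifs <;> exact le_rfl
  refine ((Cp.iteA hq0 h1 hnil).mono fun a _ τ _ => ?_).congr fun a _ => (Sm.atp_eq P Ch (x a)).symm
  split_ifs <;> exact le_rfl

end Pool.Agent.MPa9445a.GS
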