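import Pool.Agent.Lib.MP_a9445a_lc.Mg.G107
import Pool.Agent.Lib.MP_a9445a_lc.Mg.G106

/-! The array with the table gives the same samples and the same dimensions. -/

set_option autoImplicit false

open Finset

namespace Pool.Agent.MPa9445a.GS

open Pool.Agent.MPa9445a.BE (Ty Env vs one Bd NL DL tb flt gt bit Phi vec code lin argmax)
open Pool.Agent.MPa9445a.GD
open Pool.Agent.MPa9445a.SN (kb)
open Pool.Agent.MPa9445a.GL (Pc Pf Df rk sv br rc dk RL Zn LL lvv inl EE full)
open Pool.Agent.MPa9445a.SB (Lev c1 c2)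
open Pool.Agent.MPa9445a.SX (jx hN exL)

theorem rc_congr {n : ℕ} {R R' : List ℤ} {o : ℕ} (h : ∀ i < GL.bl n, gt R' (o + i) = gt R (o + i))
    (κ : ℕ) : rc n R' o κ = rc n R o κ := by
  unfold GL.rc
  refine Finset.sum_congr rfl fun v hv => ?_
  have hv1 := mem_range.1 hv
  have hb : ∀ j ≤ kb n, v * (kb n + 1) + j < GL.bl n := fun j hj => by
    unfold GL.bl
    have h1 : (v + 1) * (kb n + 1) ≤ n * (kb n + 1) := Nat.mul_le_mul_right _ hv1
    have h2 : (v + 1) * (kb n + 1) = v * (kb n + 1) + (kb n + 1) := by ring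
    omega
  have h0 := h _ (hb 0 (Nat.zero_le _))
  rw [Nat.add_zero] at h0
  have h1 : ∑ j ∈ range (kb n), gt R' (o + v * (kb n + 1) + (j + 1)) * (bit κ j : ℤ) =
      ∑ j ∈ range (kb n), gt R (o + v * (kb n + 1) + (j + 1)) * (bit κ j : ℤ) :=
    Finset.sum_congr rfl fun j hj => by
      have h2 := h _ (hb (j + 1) (mem_range.1 hj))
      rw [show o + v * (kb n + 1) + (j + 1) = o + (v * (kb n + 1) + (j + 1)) from by ring, h2]
  rw [h1, h0]

theorem parN_congr {n : ℕ} {R R' : List ℤ} {o i : ℕ}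
    (h : ∀ v < n, gt R' (o + i * n + v) = gt R (o + i * n + v)) (c : ℕ) :
    parN n R' o i c = parN n R o i c := by
  unfold parN
  rw [Finset.sum_congr rfl fun v hv => by rw [h v (mem_range.1 hv)]]

theorem kzL_congr {n : ℕ} {R R' : List ℤ} {o : ℕ} (s : List ℤ) {r : ℕ}
    (h : ∀ i < r * n, gt R' (o + i) = gt R (o + i)) : kzL n R' o s r = kzL n R o s r := by
  induction r with
  | zero => rfl
  | succ r ih =>
    rw [kzL_succ, kzL_succ, ih fun i hi => h i (hi.trans_le (Nat.mul_le_mul_right _ (by omega)))]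
    have h1 : ∀ v < n, gt R' (o + r * n + v) = gt R (o + r * n + v) := fun v hv => by
      rw [Nat.add_assoc]
      refine h _ ?_
      rw [Nat.add_mul, Nat.one_mul]
      omega
    have h2 : parN n R' o r = parN n R o r := funext fun c => parN_congr h1 c
    unfold pvL foL
    rw [h2]

theorem dmL_congr {n : ℕ} {R R' : List ℤ} (h : ∀ i < oT n, gt R' i = gt R i) (s : List ℤ) :
    dmL n R' s = dmL n R s := by
  unfold dmL
  rw [kzL_congr s fun i hi => h _ (by unfold oT oF; omega)]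

theorem fof_le {n lev z i : ℕ} (h : (lev * n + z) * 3 + i < (2 * n + 1) * 3) :
    fof n lev z i + GL.bl n ≤ oT n := by
  unfold fof oT
  have h1 : ((lev * n + z) * 3 + i + 1) * GL.bl n ≤ (2 * n + 1) * 3 * GL.bl n :=
    Nat.mul_le_mul_right _ h
  rw [Nat.add_mul, Nat.one_mul] at h1
  omega

theorem hN_congr {n : ℕ} {R R' : List ℤ} (h : ∀ i < oT n, gt R' i = gt R i) {M : List ℤ} {o : ℕ}
    (ho : o + GL.bl n ≤ oT n) (s : List ℤ) (g : ℕ) (t : ℤ) :
    hN n M R' o s g t = hN n M R o s g t := by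
  have h1 : rc n R' o = rc n R o := funext fun κ => rc_congr (fun i hi => h _ (by omega)) κ
  unfold SX.hN GL.YS
  rw [h1]

theorem exL_congr {n : ℕ} {R R' : List ℤ} (h : ∀ i < oT n, gt R' i = gt R i) {M : List ℤ} {o : ℕ}
    (ho : o + GL.bl n ≤ oT n) (s : List ℤ) (g : ℕ) (t : ℤ) (c : ℕ) :
    exL n M R' o s g t c = exL n M R o s g t c := by
  unfold SX.exL
  rw [hN_congr h ho]

theorem gt_cct {k : ℕ} {R T : List ℤ} {i : ℕ} (h : i < k) : gt (cct k R T) i = gt R i := by
  have h1 : cct k R T = cpy k R ++ T := by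
    unfold cct fm
    simp [List.range_succ]
  have h2 : (cpy k R).length = k := by simp [cpy, BE.tb]
  have h3 : gt (cct k R T) i = gt (cpy k R) i := by
    rw [h1]
    unfold BE.gt
    rw [List.getD_append _ _ _ _ (by omega)]
  rw [h3, gt_cpy h]

end Pool.Agent.MPa9445a.GS
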